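import Pool.Agent.helper70.Oct.Defs

set_option autoImplicit false
set_option linter.unusedSectionVars false

/-! # [OCT-A1] abstract covers: regions and ovals -/

open MvPolynomial Set Filter Topology

namespace Oct

section A1
variable {f : V3 → ℝ} {par : List ℕ} {ι : Type} [Finite ι] {K : ι → Set V3}
    {lab : ι → S3 → ℤ} {rk : ι → S3 → ℕ} {inv : ι → ι} (h : Cover f par K lab rk inv)

namespace A1

theorem has_unique {r : ℝ} {s s' : S3} (hs : s.Has r) (hs' : s'.Has r) : s = s' := by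
  cases s <;> cases s' <;> simp only [S3.Has] at hs hs' <;> first | rfl | linarith

theorem has_exists (r : ℝ) : ∃ s : S3, s.Has r := by
  rcases lt_trichotomy r 0 with hr | hr | hr
  · exact ⟨S3.n, hr⟩
  · exact ⟨S3.z, hr⟩
  · exact ⟨S3.p, hr⟩

theorem negV_negV (x : V3) : negV (negV x) = x := by
  apply Subtype.ext
  simp [negV]

/-- points of the parts with label `l`, zero parts if `q`, nonzero parts otherwise -/
def PS (f : V3 → ℝ) (K : ι → Set V3) (lab : ι → S3 → ℤ) (l : ℤ) (q : Prop) : Set V3 :=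
  {x | ∃ i s, (s = S3.z ↔ q) ∧ x ∈ K i ∧ s.Has (f x) ∧ lab i s = l}

theorem rg_eq (l : ℤ) : Rg f K lab l = PS f K lab l False := by
  ext x
  simp only [Rg, PS, mem_ofPred_eq, iff_false, ne_eq]

theorem og_eq (l : ℤ) : Og f K lab l = PS f K lab l True := by
  ext x
  simp only [Og, PS, mem_ofPred_eq, iff_true]
  constructor
  · rintro ⟨i, h1, h2, h3⟩
    exact ⟨i, S3.z, rfl, h1, h2, h3⟩
  · rintro ⟨i, s, rfl, h1, h2, h3⟩
    exact ⟨i, h1, h2, h3⟩

include h in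
omit [Finite ι] in
theorem exists_root (l : ℤ) (q : Prop) : ∀ n i s, rk i s = n →
    (K i ∩ {x | S3.Has s (f x)}).Nonempty → (s = S3.z ↔ q) → lab i s = l →
    ∃ i0 s0, (K i0 ∩ {x | S3.Has s0 (f x)}).Nonempty ∧ (s0 = S3.z ↔ q) ∧ lab i0 s0 = l ∧
      rk i0 s0 = 0 := by
  intro n
  induction n using Nat.strong_induction_on with
  | _ n ih =>
    intro i s hn hne hq hl
    rcases h.rank i s hne with h0 | ⟨j, ⟨x, ⟨hxi, hxj⟩, hxs⟩, hj⟩
    · exact ⟨i, s, hne, hq, hl, h0⟩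
    · refine ih (rk j s) (hn ▸ hj) j s rfl ⟨x, hxj, hxs⟩ hq ?_
      rw [h.glue j i s x hxj hxi hxs, hl]

include h in
omit [Finite ι] in
theorem chain_root (l : ℤ) (q : Prop) {i0 : ι} {s0 : S3}
    (h0 : (K i0 ∩ {x | S3.Has s0 (f x)}).Nonempty) (hq0 : s0 = S3.z ↔ q) (hl0 : lab i0 s0 = l)
    (hr0 : rk i0 s0 = 0) : ∀ n i s, rk i s = n →
    (K i ∩ {x | S3.Has s (f x)}).Nonempty → (s = S3.z ↔ q) → lab i s = l →
    ∃ T ⊆ PS f K lab l q, IsPreconnected T ∧ (K i ∩ {x | S3.Has s (f x)}) ⊆ T ∧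
      (K i0 ∩ {x | S3.Has s0 (f x)}) ⊆ T := by
  intro n
  induction n using Nat.strong_induction_on with
  | _ n ih =>
    intro i s hn hne hq hl
    rcases h.rank i s hne with h1 | ⟨j, ⟨x, ⟨hxi, hxj⟩, hxs⟩, hj⟩
    · obtain ⟨rfl, rfl⟩ := h.root i i0 s s0 hne h0 h1 hr0 (hq.trans hq0.symm) (hl.trans hl0.symm)
      refine ⟨K i ∩ {x | S3.Has s (f x)}, ?_, h.part i s, Subset.rfl, Subset.rfl⟩
      rintro y ⟨hy1, hy2⟩
      exact ⟨i, s, hq, hy1, hy2, hl⟩
    · have hlj : lab j s = l := by rw [h.glue j i s x hxj hxi hxs, hl]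
      obtain ⟨T, hT1, hT2, hT3, hT4⟩ := ih (rk j s) (hn ▸ hj) j s rfl ⟨x, hxj, hxs⟩ hq hlj
      refine ⟨T ∪ (K i ∩ {x | S3.Has s (f x)}), ?_, ?_, subset_union_right,
        hT4.trans subset_union_left⟩
      · refine union_subset hT1 ?_
        rintro y ⟨hy1, hy2⟩
        exact ⟨i, s, hq, hy1, hy2, hl⟩
      · exact IsPreconnected.union x (hT3 ⟨hxj, hxs⟩) ⟨hxi, hxs⟩ hT2 (h.part i s)

include h in
omit [Finite ι] in
theorem ps_conn (l : ℤ) (q : Prop) (hne : (PS f K lab l q).Nonempty) :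
    IsConnected (PS f K lab l q) := by
  refine ⟨hne, ?_⟩
  obtain ⟨x, i, s, hq, hx1, hx2, hl⟩ := hne
  obtain ⟨i0, s0, h0, hq0, hl0, hr0⟩ := exists_root h l q _ i s rfl ⟨x, hx1, hx2⟩ hq hl
  obtain ⟨x0, hx0⟩ := id h0
  refine isPreconnected_of_forall x0 ?_
  rintro y ⟨j, s', hq', hy1, hy2, hl'⟩
  obtain ⟨T, hT1, hT2, hT3, hT4⟩ :=
    chain_root h l q h0 hq0 hl0 hr0 _ j s' rfl ⟨y, hy1, hy2⟩ hq' hl'
  exact ⟨T, hT1, hT4 hx0, hT3 ⟨hy1, hy2⟩, hT2⟩

include h in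
omit [Finite ι] in
theorem mem_rg_iff {i : ι} {s : S3} {x : V3} (hx : x ∈ K i) (hs : s.Has (f x)) (hz : s ≠ S3.z)
    (l : ℤ) : x ∈ Rg f K lab l ↔ lab i s = l := by
  constructor
  · rintro ⟨j, s', hz', hx', hs', hl⟩
    obtain rfl := has_unique hs hs'
    rw [← hl]
    exact h.glue i j s x hx hx' hs
  · intro hl
    exact ⟨i, s, hz, hx, hs, hl⟩

include h in
omit [Finite ι] in
theorem mem_og_iff {i : ι} {x : V3} (hx : x ∈ K i) (hs : f x = 0)
    (l : ℤ) : x ∈ Og f K lab l ↔ lab i S3.z = l := by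
  constructor
  · rintro ⟨j, hx', hs', hl⟩
    rw [← hl]
    exact h.glue i j S3.z x hx hx' hs
  · intro hl
    exact ⟨i, hx, hs, hl⟩

end A1

open A1

include h

theorem up_neg (l : ℤ) : up par (-l) = -up par l := by
  rcases l with (_ | n) | n
  · simp [up]
  · show up par (Int.negSucc n) = -up par (Int.ofNat (n + 1))
    simp [up]
  · show up par (Int.ofNat (n + 1)) = -up par (Int.negSucc n)
    simp [up]

theorem up_nonneg {l : ℤ} (hl : 0 < l) (hm : l ≤ par.length) : 0 ≤ up par l ∧ up par l < l := by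
  obtain ⟨n, rfl⟩ : ∃ n : ℕ, l = ((n + 1 : ℕ) : ℤ) := ⟨(l - 1).toNat, by omega⟩
  have h1 : up par ((n + 1 : ℕ) : ℤ) = ((par.getD n 0 : ℕ) : ℤ) := rfl
  have h2 := h.tree n (by omega)
  rw [h1]
  omega

theorem up_abs {l : ℤ} (hl : l ≠ 0) (hm : l.natAbs ≤ par.length) :
    (up par l).natAbs ≤ par.length := by
  rcases lt_or_gt_of_ne hl with h1 | h1
  · have h2 := up_nonneg h (l := -l) (by omega) (by omega)
    rw [up_neg h] at h2
    omega
  · have h2 := up_nonneg h (l := l) h1 (by omega)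
    omega

theorem rg_conn {l : ℤ} (hl : l.natAbs ≤ par.length) : IsConnected (Rg f K lab l) := by
  rw [rg_eq]
  refine ps_conn h l False ?_
  by_cases h0 : l = 0
  · subst h0
    obtain ⟨i, hi, hne⟩ := h.all 1 one_ne_zero (by have := h.m_pos; simpa using Nat.succ_le_of_lt this)
    have h1 : up par 1 = 0 := by
      have := up_nonneg h (l := 1) one_pos (by have := h.m_pos; omega)
      omega
    obtain ⟨⟨x, hx1, hx2⟩, ⟨y, hy1, hy2⟩, hlab⟩ := h.oval i hne
    rw [hi, h1] at hlab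
    rcases hlab with ⟨-, h2⟩ | ⟨-, h2⟩
    · exact ⟨y, i, S3.n, by simp, hy1, hy2, h2⟩
    · exact ⟨x, i, S3.p, by simp, hx1, hx2, h2⟩
  · obtain ⟨i, hi, hne⟩ := h.all l h0 hl
    obtain ⟨⟨x, hx1, hx2⟩, ⟨y, hy1, hy2⟩, hlab⟩ := h.oval i hne
    rw [hi] at hlab
    rcases hlab with ⟨h2, -⟩ | ⟨h2, -⟩
    · exact ⟨x, i, S3.p, by simp, hx1, hx2, h2⟩
    · exact ⟨y, i, S3.n, by simp, hy1, hy2, h2⟩

theorem og_conn {o : ℤ} (ho : o ≠ 0) (hl : o.natAbs ≤ par.length) :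
    IsConnected (Og f K lab o) := by
  rw [og_eq]
  refine ps_conn h o True ?_
  obtain ⟨i, hi, x, hx1, hx2⟩ := h.all o ho hl
  exact ⟨x, i, S3.z, by simp, hx1, hx2, hi⟩

theorem og_closed (o : ℤ) : IsClosed (Og f K lab o) := by
  have e : Og f K lab o = ⋃ i, {x | x ∈ K i ∧ f x = 0 ∧ lab i S3.z = o} := by
    ext x
    simp only [Og, mem_iUnion]
    rfl
  rw [e]
  refine isClosed_iUnion_of_finite fun i => ?_
  by_cases hi : lab i S3.z = o
  · have e2 : {x | x ∈ K i ∧ f x = 0 ∧ lab i S3.z = o} = K i ∩ f ⁻¹' {0} := by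
      ext x
      simp [hi]
    rw [e2]
    exact (h.closed i).inter (isClosed_singleton.preimage h.cont)
  · have e2 : {x | x ∈ K i ∧ f x = 0 ∧ lab i S3.z = o} = ∅ := by
      ext x
      simp [hi]
    rw [e2]
    exact isClosed_empty

theorem rg_rg {l l' : ℤ} (hl : l ≠ l') : Disjoint (Rg f K lab l) (Rg f K lab l') := by
  rw [Set.disjoint_left]
  rintro x ⟨i, s, hz, hx, hs, hl1⟩ hx'
  exact hl (hl1.symm.trans ((mem_rg_iff h hx hs hz l').1 hx'))

theorem og_og {l l' : ℤ} (hl : l ≠ l') : Disjoint (Og f K lab l) (Og f K lab l') := by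
  rw [Set.disjoint_left]
  rintro x ⟨i, hx, hs, hl1⟩ hx'
  exact hl (hl1.symm.trans ((mem_og_iff h hx hs l').1 hx'))

theorem rg_og (l o : ℤ) : Disjoint (Rg f K lab l) (Og f K lab o) := by
  rw [Set.disjoint_left]
  rintro x ⟨i, s, hz, hx, hs, hl1⟩ ⟨j, hx', hs', hl2⟩
  exact hz (has_unique hs (s' := S3.z) hs')

theorem rg_cover {x : V3} (hx : f x ≠ 0) : ∃ l : ℤ, l.natAbs ≤ par.length ∧
    x ∈ Rg f K lab l := by
  obtain ⟨i, hi⟩ := h.cover x
  obtain ⟨s, hs⟩ := has_exists (f x)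
  refine ⟨lab i s, (h.range i s ⟨x, hi, hs⟩).1, i, s, ?_, hi, hs, rfl⟩
  rintro rfl
  exact hx hs

theorem og_cover {x : V3} (hx : f x = 0) : ∃ o : ℤ, o ≠ 0 ∧ o.natAbs ≤ par.length ∧
    x ∈ Og f K lab o := by
  obtain ⟨i, hi⟩ := h.cover x
  have hr := h.range i S3.z ⟨x, hi, hx⟩
  exact ⟨lab i S3.z, hr.2 rfl, hr.1, i, hi, hx, rfl⟩

/-- an oval touches the regions `o` and `up o` -/
theorem triple {o : ℤ} (ho : o ≠ 0) (hl : o.natAbs ≤ par.length) :
    IsPreconnected (Rg f K lab o ∪ Og f K lab o ∪ Rg f K lab (up par o)) := by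
  obtain ⟨i, hi, hne⟩ := h.all o ho hl
  obtain ⟨⟨x, hx1, hx2⟩, ⟨y, hy1, hy2⟩, hlab⟩ := h.oval i hne
  obtain ⟨w, hw1, hw2⟩ := hne
  rw [hi] at hlab
  have hA := (rg_conn h hl).isPreconnected
  have hB := (og_conn h ho hl).isPreconnected
  have hC := (rg_conn h (up_abs h ho hl)).isPreconnected
  have hwO : w ∈ Og f K lab o := ⟨i, hw1, hw2, hi⟩
  have hsub : K i ⊆ Rg f K lab o ∪ Og f K lab o ∪ Rg f K lab (up par o) := by
    intro v hv
    obtain ⟨s, hs⟩ := has_exists (f v)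
    cases s with
    | z => exact Or.inl (Or.inr ⟨i, hv, hs, hi⟩)
    | p =>
      rcases hlab with ⟨h1, h2⟩ | ⟨h1, h2⟩
      · exact Or.inl (Or.inl ⟨i, S3.p, by simp, hv, hs, h1⟩)
      · exact Or.inr ⟨i, S3.p, by simp, hv, hs, h2⟩
    | n =>
      rcases hlab with ⟨h1, h2⟩ | ⟨h1, h2⟩
      · exact Or.inr ⟨i, S3.n, by simp, hv, hs, h2⟩
      · exact Or.inl (Or.inl ⟨i, S3.n, by simp, hv, hs, h1⟩)
  obtain ⟨a, haK, haR⟩ : ∃ a ∈ K i, a ∈ Rg f K lab o := by
    rcases hlab with ⟨h1, h2⟩ | ⟨h1, h2⟩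
    · exact ⟨x, hx1, i, S3.p, by simp, hx1, hx2, h1⟩
    · exact ⟨y, hy1, i, S3.n, by simp, hy1, hy2, h1⟩
  obtain ⟨b, hbK, hbR⟩ : ∃ b ∈ K i, b ∈ Rg f K lab (up par o) := by
    rcases hlab with ⟨h1, h2⟩ | ⟨h1, h2⟩
    · exact ⟨y, hy1, i, S3.n, by simp, hy1, hy2, h2⟩
    · exact ⟨x, hx1, i, S3.p, by simp, hx1, hx2, h2⟩
  have h1 : IsPreconnected (K i ∪ Rg f K lab o) :=
    IsPreconnected.union a haK haR (h.conn i) hA
  have h2 : IsPreconnected (K i ∪ Rg f K lab o ∪ Og f K lab o) :=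
    IsPreconnected.union w (Or.inl hw1) hwO h1 hB
  have h3 : IsPreconnected (K i ∪ Rg f K lab o ∪ Og f K lab o ∪ Rg f K lab (up par o)) :=
    IsPreconnected.union b (Or.inl (Or.inl hbK)) hbR h2 hC
  have e : K i ∪ Rg f K lab o ∪ Og f K lab o ∪ Rg f K lab (up par o)
      = Rg f K lab o ∪ Og f K lab o ∪ Rg f K lab (up par o) := by
    apply Subset.antisymm
    · rintro v (((hv | hv) | hv) | hv)
      · exact hsub hv
      · exact Or.inl (Or.inl hv)
      · exact Or.inl (Or.inr hv)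
      · exact Or.inr hv
    · rintro v ((hv | hv) | hv)
      · exact Or.inl (Or.inl (Or.inr hv))
      · exact Or.inl (Or.inr hv)
      · exact Or.inr hv
  rwa [e] at h3

theorem rg_neg (l : ℤ) (x : V3) : negV x ∈ Rg f K lab (-l) ↔ x ∈ Rg f K lab l := by
  constructor
  · rintro ⟨i, s, hz, hx, hs, hl⟩
    refine ⟨inv i, s, hz, (h.invK i x).2 hx, ?_, ?_⟩
    · rwa [h.fneg] at hs
    · rw [h.invlab, hl, neg_neg]
  · rintro ⟨i, s, hz, hx, hs, hl⟩
    refine ⟨inv i, s, hz, (h.invK i (negV x)).2 (by rwa [negV_negV]), ?_, ?_⟩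
    · rwa [h.fneg]
    · rw [h.invlab, hl]

theorem og_neg (l : ℤ) (x : V3) : negV x ∈ Og f K lab (-l) ↔ x ∈ Og f K lab l := by
  constructor
  · rintro ⟨i, hx, hs, hl⟩
    refine ⟨inv i, (h.invK i x).2 hx, ?_, ?_⟩
    · rwa [h.fneg] at hs
    · rw [h.invlab, hl, neg_neg]
  · rintro ⟨i, hx, hs, hl⟩
    refine ⟨inv i, (h.invK i (negV x)).2 (by rwa [negV_negV]), ?_, ?_⟩
    · rwa [h.fneg]
    · rw [h.invlab, hl]

theorem rg_cone (l : ℤ) (x : V3) (r : ℝ) (hr : 0 < r) (hx : x ∈ Rg f K lab l) :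
    mulV r hr x ∈ Rg f K lab l := by
  obtain ⟨i, s, hz, hx, hs, hl⟩ := hx
  exact ⟨i, s, hz, h.cone i x r hr hx, (h.fmul x r hr s).2 hs, hl⟩

theorem og_cone (l : ℤ) (x : V3) (r : ℝ) (hr : 0 < r) (hx : x ∈ Og f K lab l) :
    mulV r hr x ∈ Og f K lab l := by
  obtain ⟨i, hx, hs, hl⟩ := hx
  exact ⟨i, h.cone i x r hr hx, (h.fmul x r hr S3.z).2 hs, hl⟩

/-- closedness criterion: a union of regions (`A`) and ovals (`B`) is closed if it contains the
oval `o` whenever it contains one of the regions `o`, `up o`. -/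
theorem closed_of (A B : ℤ → Prop)
    (hAB : ∀ o : ℤ, o ≠ 0 → o.natAbs ≤ par.length → (A o ∨ A (up par o)) → B o) :
    IsClosed {x : V3 | (∃ l, A l ∧ x ∈ Rg f K lab l) ∨ ∃ o, B o ∧ x ∈ Og f K lab o} := by
  set S : Set V3 := {x : V3 | (∃ l, A l ∧ x ∈ Rg f K lab l) ∨ ∃ o, B o ∧ x ∈ Og f K lab o}
    with hS
  have e : S = ⋃ i, K i ∩ S := by
    rw [← iUnion_inter]
    have : (⋃ i, K i) = univ := by
      rw [eq_univ_iff_forall]
      intro x
      exact mem_iUnion.2 (h.cover x)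
    rw [this, univ_inter]
  rw [e]
  refine isClosed_iUnion_of_finite fun i => ?_
  have hnz : ∀ x ∈ K i, ∀ s : S3, s ≠ S3.z → s.Has (f x) → (x ∈ S ↔ A (lab i s)) := by
    intro x hx s hz hs
    constructor
    · rintro (⟨l, hl, hxl⟩ | ⟨o, ho, hxo⟩)
      · rwa [(mem_rg_iff h hx hs hz l).1 hxl]
      · exact absurd hxo (Set.disjoint_left.1 (rg_og h (lab i s) o) ⟨i, s, hz, hx, hs, rfl⟩)
    · intro hA
      exact Or.inl ⟨lab i s, hA, i, s, hz, hx, hs, rfl⟩
  have hzz : ∀ x ∈ K i, f x = 0 → (x ∈ S ↔ B (lab i S3.z)) := by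
    intro x hx hs
    constructor
    · rintro (⟨l, hl, hxl⟩ | ⟨o, ho, hxo⟩)
      · exact absurd (show x ∈ Og f K lab (lab i S3.z) from ⟨i, hx, hs, rfl⟩)
          (Set.disjoint_left.1 (rg_og h l (lab i S3.z)) hxl)
      · rwa [(mem_og_iff h hx hs o).1 hxo]
    · intro hB
      exact Or.inr ⟨lab i S3.z, hB, i, hx, hs, rfl⟩
  by_cases hne : (K i ∩ {x | S3.Has S3.z (f x)}).Nonempty
  · obtain ⟨-, -, hlab⟩ := h.oval i hne
    have hr := h.range i S3.z hne
    by_cases hB : B (lab i S3.z)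
    · have e2 : K i ∩ S = K i ∩ ({x | A (lab i S3.p) ∨ f x ≤ 0} ∩ {x | A (lab i S3.n) ∨ 0 ≤ f x})
          := by
        ext x
        simp only [mem_inter_iff, mem_ofPred_eq]
        refine and_congr_right fun hx => ?_
        rcases lt_trichotomy (f x) 0 with hf | hf | hf
        · rw [hnz x hx S3.n (by simp) hf]
          constructor
          · intro hA
            exact ⟨Or.inr hf.le, Or.inl hA⟩
          · rintro ⟨-, hA | hA⟩
            · exact hA
            · exact absurd hA (not_le.2 hf)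
        · rw [hzz x hx hf]
          exact ⟨fun _ => ⟨Or.inr hf.le, Or.inr hf.ge⟩, fun _ => hB⟩
        · rw [hnz x hx S3.p (by simp) hf]
          constructor
          · intro hA
            exact ⟨Or.inl hA, Or.inr hf.le⟩
          · rintro ⟨hA | hA, -⟩
            · exact hA
            · exact absurd hA (not_le.2 hf)
      rw [e2]
      refine (h.closed i).inter (IsClosed.inter ?_ ?_)
      · by_cases hA : A (lab i S3.p)
        · simp [hA]
        · simpa [hA] using isClosed_le h.cont continuous_const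
      · by_cases hA : A (lab i S3.n)
        · simp [hA]
        · simpa [hA] using isClosed_le continuous_const h.cont
    · have hno : ¬ (A (lab i S3.z) ∨ A (up par (lab i S3.z))) := fun hA =>
        hB (hAB _ (hr.2 rfl) hr.1 hA)
      push Not at hno
      have hp : ¬ A (lab i S3.p) ∧ ¬ A (lab i S3.n) := by
        rcases hlab with ⟨h1, h2⟩ | ⟨h1, h2⟩
        · rw [h1, h2]
          exact hno
        · rw [h1, h2]
          exact ⟨hno.2, hno.1⟩
      have e2 : K i ∩ S = ∅ := by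
        rw [eq_empty_iff_forall_notMem]
        rintro x ⟨hx, hxS⟩
        rcases lt_trichotomy (f x) 0 with hf | hf | hf
        · exact hp.2 ((hnz x hx S3.n (by simp) hf).1 hxS)
        · exact hB ((hzz x hx hf).1 hxS)
        · exact hp.1 ((hnz x hx S3.p (by simp) hf).1 hxS)
      rw [e2]
      exact isClosed_empty
  · -- constant sign
    have hs : (∃ s : S3, s ≠ S3.z ∧ ∀ x ∈ K i, s.Has (f x)) := by
      by_cases hp : ∃ x ∈ K i, 0 < f x
      · obtain ⟨x, hx, hfx⟩ := hp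
        refine ⟨S3.p, by simp, fun y hy => ?_⟩
        by_contra hfy
        have hfy' : f y ≤ 0 := not_lt.1 hfy
        obtain ⟨w, hw, hfw⟩ := (h.conn i).intermediate_value hy hx h.cont.continuousOn
          ⟨hfy', hfx.le⟩
        exact hne ⟨w, hw, hfw⟩
      · push Not at hp
        refine ⟨S3.n, by simp, fun y hy => lt_of_le_of_ne (hp y hy) fun h0 => hne ⟨y, hy, h0⟩⟩
    obtain ⟨s, hz, hs⟩ := hs
    by_cases hA : A (lab i s)
    · have e2 : K i ∩ S = K i :=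
        inter_eq_left.2 fun x hx => (hnz x hx s hz (hs x hx)).2 hA
      rw [e2]
      exact h.closed i
    · have e2 : K i ∩ S = ∅ := by
        rw [eq_empty_iff_forall_notMem]
        rintro x ⟨hx, hxS⟩
        exact hA ((hnz x hx s hz (hs x hx)).1 hxS)
      rw [e2]
      exact isClosed_empty

end A1

end Oct
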